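import Pool.Agent.Helper41.LD3.Defs
import Pool.Agent.Helper34.LD.WA
import Pool.Agent.Helper5.LD.GA

/-!
# Project LD3, block LIN: linear sequences, windows and covariances
-/

set_option autoImplicit false

namespace Pool.Agent.Helper5.LD3

open Set MeasureTheory Filter Topology
open Pool.Agent.Helper41.LD (av var ind haar idx)
open Pool.Agent.Helper41.LD2 (A M W Pot NB Wd EqA)
open Pool.Agent.Helper41.LD3 (lin Geo)
open Pool.Agent.Helper34.LD (int_haar_le int_ind_le prim_haar)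
open Pool.Agent.Helper5.LD (ind_meas haar_meas haar_abs ind_nonneg ind_le_one ii_bdd pieces)

variable {β : ℝ} {y c : ℕ → ℝ}

theorem geo_le (hy : Geo y β) (n d : ℕ) : β ^ d * y n ≤ y (n + d) := by
  induction d with
  | zero => simp
  | succ d ih =>
    have h1 := hy.grow (n + d)
    have h2 : β * (β ^ d * y n) ≤ β * y (n + d) := mul_le_mul_of_nonneg_left ih (by linarith [hy.hβ])
    calc β ^ (d + 1) * y n = β * (β ^ d * y n) := by ring
      _ ≤ y (n + d + 1) := h2.trans h1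

theorem geo_le' (hy : Geo y β) {i j : ℕ} (hij : i ≤ j) : y i / y j ≤ β⁻¹ ^ (j - i) := by
  obtain ⟨d, rfl⟩ := Nat.exists_eq_add_of_le hij
  have hβ : 0 < β := by linarith [hy.hβ]
  have h1 := geo_le hy i d
  rw [Nat.add_sub_cancel_left, inv_pow, div_le_iff₀ (hy.pos _), inv_mul_eq_div, le_div_iff₀ (by positivity)]
  linarith

theorem one_div_le (hy : Geo y β) {n j : ℕ} (hj : n ≤ j) {ℓ : ℝ} (hn : 1 ≤ y n * ℓ) : 1 / y j ≤ β⁻¹ ^ (j - n) * ℓ := by
  have h0 := hy.pos n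
  have h1 := geo_le' hy hj
  have hℓ : 1 / y n ≤ ℓ := by
    rw [div_le_iff₀ h0]
    linarith
  have hℓ0 : 0 ≤ 1 / y n := by positivity
  calc 1 / y j = y n / y j * (1 / y n) := by
        have := (hy.pos j).ne'
        field_simp
    _ ≤ β⁻¹ ^ (j - n) * ℓ := by
        have h2 : (0 : ℝ) ≤ β⁻¹ ^ (j - n) := by
          have : 0 < β := by linarith [hy.hβ]
          positivity
        exact mul_le_mul h1 hℓ hℓ0 h2

theorem lin_Wd (hy : Geo y β) {n m : ℕ} {a ℓ : ℝ} (hℓ : 0 < ℓ) (hn : 1 ≤ y n * ℓ) : Wd (lin y c) β n m a ℓ := by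
  have hβ : 1 < β := hy.hβ
  refine ⟨hℓ, fun j => ?_, fun k i j hj => ?_, fun k i j hj _ => ?_⟩
  · exact (measurable_const_mul (y j)).add_const (c j)
  · have h1 := int_haar_le (hy.pos j) k i (c j) a (a + ℓ) (by linarith)
    have h2 := one_div_le hy hj hn
    refine h1.trans ?_
    calc (1 / 2 : ℝ) ^ k / y j = (1 / 2) ^ k * (1 / y j) := by ring
      _ ≤ (1 / 2) ^ k * (β⁻¹ ^ (j - n) * ℓ) := mul_le_mul_of_nonneg_left h2 (by positivity)
      _ = (1 / 2) ^ k * β⁻¹ ^ (j - n) * ℓ := by ring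
  · have h1 := int_ind_le (hy.pos j) k i (c j) a (a + ℓ) (by linarith)
    have h2 := one_div_le hy hj hn
    have hp : (β⁻¹ : ℝ) ^ (j - n) ≤ 1 := pow_le_one₀ (by positivity) (inv_le_one_of_one_le₀ hβ.le)
    have h3 : 1 / y j ≤ ℓ := h2.trans (mul_le_of_le_one_left hℓ.le hp)
    refine h1.trans ?_
    have h4 := (hy.pos j).ne'
    calc (y j * (a + ℓ - a) + 1) * (1 / 2) ^ k / y j = (ℓ + 1 / y j) * (1 / 2) ^ k := by field_simp; ring
      _ ≤ (ℓ + ℓ) * (1 / 2) ^ k := mul_le_mul_of_nonneg_right (by linarith) (by positivity)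
      _ ≤ 4 * (1 / 2) ^ k * ℓ := by
        have : (0 : ℝ) < (1 / 2) ^ k * ℓ := by positivity
        nlinarith

/-- product of two Haar functions of the same interval, with the factor `(1 / 2) ^ k'` of the fast one -/
theorem pair_piece_sharp {α β : ℝ} (hα : 0 < α) (hβ : 0 < β) (k i k' i' : ℕ) (c d a b : ℝ) (hab : a ≤ b) :
    |∫ x in a..b, haar k i (β * x + d) * haar k' i' (α * x + c)| ≤ (β * (b - a) + 2) * ((1 / 2) ^ k' / α) := by
  have hgm : Measurable fun x => haar k' i' (α * x + c) := (haar_meas k' i').comp ((measurable_const_mul α).add_const c)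
  have hg1 : ∀ x, |haar k' i' (α * x + c)| ≤ 1 := fun x => haar_abs _ _ _
  obtain ⟨η, hηd⟩ : ∃ η : ℝ, η = (1 / 2) ^ (k' + 1) / α := ⟨_, rfl⟩
  have hη : (0 : ℝ) ≤ η := by rw [hηd]; positivity
  have hg : ∀ s t, s ≤ t → |∫ x in s..t, haar k' i' (α * x + c)| ≤ η := fun s t _ => by
    rw [intervalIntegral.integral_comp_mul_add (fun t => haar k' i' t) hα.ne' c, smul_eq_mul, abs_mul, abs_of_pos (inv_pos.2 hα),
      hηd, div_eq_inv_mul]
    exact mul_le_mul_of_nonneg_left (prim_haar k' i' _ _) (inv_pos.2 hα).le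
  have key : ∀ j : ℕ, |∫ x in a..b, ind (k + 1) j (β * x + d) * haar k' i' (α * x + c)| ≤ (β * (b - a) + 2) * η := by
    intro j
    have hba : 0 ≤ β * (b - a) := mul_nonneg hβ.le (by linarith)
    have h1 := pieces hgm hg1 hη hg hβ (k + 1) j d (⌊β * (b - a)⌋₊ + 1) a b hab ⌊β * a + d⌋ (Int.floor_le _) (by
      have h2 := Int.lt_floor_add_one (β * a + d)
      have h3 := Nat.lt_floor_add_one (β * (b - a))
      push_cast
      nlinarith)
    refine h1.trans (mul_le_mul_of_nonneg_right ?_ hη)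
    have h3 := Nat.floor_le hba
    push_cast
    linarith
  have hm : ∀ j : ℕ, Measurable fun x => ind (k + 1) j (β * x + d) * haar k' i' (α * x + c) := fun j =>
    ((ind_meas (k + 1) j).comp ((measurable_const_mul β).add_const d)).mul hgm
  have hb : ∀ j x, |ind (k + 1) j (β * x + d) * haar k' i' (α * x + c)| ≤ 1 := fun j x => by
    rw [abs_mul, abs_of_nonneg (ind_nonneg _ _ _)]
    exact mul_le_one₀ (ind_le_one _ _ _) (abs_nonneg _) (hg1 x)
  have e : ∫ x in a..b, haar k i (β * x + d) * haar k' i' (α * x + c) =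
      (∫ x in a..b, ind (k + 1) (2 * i) (β * x + d) * haar k' i' (α * x + c)) -
        ∫ x in a..b, ind (k + 1) (2 * i + 1) (β * x + d) * haar k' i' (α * x + c) := by
    rw [← intervalIntegral.integral_sub (ii_bdd (hm _) (hb _) a b) (ii_bdd (hm _) (hb _) a b)]
    refine intervalIntegral.integral_congr fun x _ => ?_
    show haar k i (β * x + d) * haar k' i' (α * x + c) = _
    unfold haar
    ring
  rw [e]
  have h1 := abs_sub (∫ x in a..b, ind (k + 1) (2 * i) (β * x + d) * haar k' i' (α * x + c))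
    (∫ x in a..b, ind (k + 1) (2 * i + 1) (β * x + d) * haar k' i' (α * x + c))
  have h2 := key (2 * i)
  have h3 := key (2 * i + 1)
  have e2 : (β * (b - a) + 2) * ((1 / 2) ^ k' / α) = (β * (b - a) + 2) * η + (β * (b - a) + 2) * η := by
    rw [hηd, pow_succ]
    ring
  rw [e2]
  linarith

theorem lin_cov (hy : Geo y β) {n : ℕ} {a ℓ : ℝ} (hℓ : 0 < ℓ) (hn : 1 ≤ y n * ℓ) (k i : ℕ) {j₁ j₂ : ℕ} (h1 : n ≤ j₁) (h2 : j₁ ≤ j₂) :
    |∫ x in a..(a + ℓ), haar k i (lin y c j₁ x) * haar k i (lin y c j₂ x)| ≤ 4 * (1 / 2) ^ k * β⁻¹ ^ (j₂ - j₁) * ℓ := by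
  have hβ : 1 < β := hy.hβ
  have h3 := pair_piece_sharp (hy.pos j₂) (hy.pos j₁) k i k i (c j₂) (c j₁) a (a + ℓ) (by linarith)
  refine h3.trans ?_
  have h4 : 1 ≤ y j₁ * ℓ := by
    have h5 := one_div_le hy h1 hn
    have hp : (β⁻¹ : ℝ) ^ (j₁ - n) ≤ 1 := pow_le_one₀ (by positivity) (inv_le_one_of_one_le₀ hβ.le)
    have h6 : 1 / y j₁ ≤ ℓ := h5.trans (mul_le_of_le_one_left hℓ.le hp)
    rw [div_le_iff₀ (hy.pos _)] at h6
    linarith
  have h5 := geo_le' hy h2
  have h6 := hy.pos j₂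
  have hk : (0 : ℝ) < (1 / 2) ^ k := by positivity
  calc (y j₁ * (a + ℓ - a) + 2) * ((1 / 2) ^ k / y j₂) ≤ (4 * (y j₁ * ℓ)) * ((1 / 2) ^ k / y j₂) := by
        refine mul_le_mul_of_nonneg_right ?_ (by positivity)
        rw [add_sub_cancel_left]
        linarith
    _ = 4 * (1 / 2) ^ k * (y j₁ / y j₂) * ℓ := by ring
    _ ≤ 4 * (1 / 2) ^ k * β⁻¹ ^ (j₂ - j₁) * ℓ := by gcongr

end Pool.Agent.Helper5.LD3
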